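import Pool.Agent.Q117.LF.Cnt

/-!
MP_0fefc4_nt (primes `p` with `2 p - 1` prime): `n` prime and `2 n - 1` a prime or a product of two large primes (or the roles exchanged), with the
surroundings of BOTH members prescribed exactly, at the scale of Rankin.
-/

set_option autoImplicit false

namespace Pool.Agent.Results.MP_0fefc4_nt.PrescribedSurroundings

/-- the scale of Rankin -/
noncomputable def R (X : ℝ) : ℝ :=
  Real.log X * Real.log (Real.log X) * Real.log (Real.log (Real.log (Real.log X))) / (Real.log (Real.log (Real.log X))) ^ 2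

/-- all prime factors of `m` are `> z` (so `0` is not rough) -/
def Rough (z : ℝ) (m : ℤ) : Prop := ∀ p : ℕ, p.Prime → (p : ℤ) ∣ m → z < p

/-- at most two prime factors (with multiplicity), all `> z` -/
def AtMostTwo (z : ℝ) (m : ℤ) : Prop := m.natAbs.primeFactorsList.length ≤ 2 ∧ Rough z m

/-- no prime divides one of the numbers `n + h`, `2 n - 1 + h'` for every `n` -/
def NoFixedDivisor (H K : Finset ℤ) : Prop :=
  ∀ p : ℕ, p.Prime → ∃ n : ℕ, (∀ h ∈ H, ¬ (p : ℤ) ∣ n + h) ∧ ∀ h ∈ K, ¬ (p : ℤ) ∣ 2 * n - 1 + h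

/-- among all the integers at distance `≤ D` from `n` exactly the `n + s`, `s ∈ H`, have no small prime factor, and among those at distance `≤ D`
from `2 n - 1` exactly the `2 n - 1 + s`, `s ∈ K` -/
def Surroundings (t : ℕ) (X D : ℝ) (H K : Finset ℤ) (n : ℕ) : Prop :=
  ∀ s : ℤ, |(s : ℝ)| ≤ D → (s ∈ H → Rough (X ^ (1 / (t : ℝ))) (n + s)) ∧ (s ∉ H → ¬ Rough (Real.log X) (n + s)) ∧
    (s ∈ K → Rough (X ^ (1 / (t : ℝ))) (2 * n - 1 + s)) ∧ (s ∉ K → ¬ Rough (Real.log X) (2 * n - 1 + s))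

theorem result : ∀ k : ℕ, ∃ t : ℕ, 1 ≤ t ∧ ∃ c : ℝ, 0 < c ∧ ∃ X0 : ℝ, ∀ X : ℝ, X0 ≤ X → ∀ H K : Finset ℤ,
    H.card ≤ k → K.card ≤ k → 0 ∈ H → 0 ∈ K → (∀ h ∈ H, |(h : ℝ)| ≤ c * R X) → (∀ h ∈ K, |(h : ℝ)| ≤ c * R X) → NoFixedDivisor H K →
    X ^ (99 / 100 : ℝ) ≤ ({n : ℕ | X < n ∧ (n : ℝ) ≤ 2 * X ∧ n.Prime ∧ AtMostTwo (X ^ (1 / 8 : ℝ)) (2 * n - 1) ∧
      Surroundings t X (c * R X) H K n}.ncard : ℝ) ∧
    X ^ (99 / 100 : ℝ) ≤ ({n : ℕ | X < n ∧ (n : ℝ) ≤ 2 * X ∧ (2 * n - 1).Prime ∧ AtMostTwo (X ^ (1 / 8 : ℝ)) n ∧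
      Surroundings t X (c * R X) H K n}.ncard : ℝ) := by
  intro k
  obtain ⟨t, ht, c, hc, X0, h⟩ := Pool.Agent.Q117.LF.t1 Pool.Agent.Q117.LF.famC k
  refine ⟨t, ht, c, hc, max X0 0, fun X hX H K h1 h2 h3 h4 h5 h6 h7 => ?_⟩
  have hX0 : (0 : ℝ) ≤ X := (le_max_right _ _).trans hX
  obtain ⟨a, b⟩ := h X ((le_max_left _ _).trans hX) H K h1 h2 h3 h4 h5 h6 h7
  exact ⟨Pool.Agent.Q117.LF.cnt hX0 _ _ a, Pool.Agent.Q117.LF.cnt hX0 _ _ b⟩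

end Pool.Agent.Results.MP_0fefc4_nt.PrescribedSurroundings
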