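import Pool.Agent.Q250.NP.NatRow

/-!
# Primes `p` with `2 p - 1`, or any admissible system `a_i p + b_i`, almost prime: narrow progressions, uniformly in the system
-/

set_option autoImplicit false

namespace Pool.Agent.Results.MP_0fefc4_nt.UniformProgressions

open Finset Filter Polynomial
open Pool.Agent.Q250.NP
open Pool.Agent.Q253.Line (W NFD rt)

/-- `a_i ≥ 1`, and no prime divides `x ∏ (a_i x + b_i)` for all `x` -/
def Admissible {m : ℕ} (a : Fin m → ℕ) (b : Fin m → ℤ) : Prop :=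
  (∀ i, 1 ≤ a i) ∧ ∀ p : ℕ, p.Prime → ∃ x : ℤ, ¬ (p : ℤ) ∣ x * ∏ i, ((a i : ℤ) * x + b i)

/-- the size conditions at `n` -/
def Sized {m : ℕ} (k n : ℕ) (a : Fin m → ℕ) (b : Fin m → ℤ) : Prop := ∀ i, a i ≤ n ^ k ∧ 2 * |b i| ≤ (a i : ℤ) * n

/-- the number of the classes `x` modulo `p` with `p ∣ x ∏ (a_i x + b_i)` -/
def omega {m : ℕ} (a : Fin m → ℕ) (b : Fin m → ℤ) (p : ℕ) : ℕ :=
  ((range p).filter (fun x : ℕ => (p : ℤ) ∣ (x : ℤ) * ∏ i, ((a i : ℤ) * (x : ℤ) + b i))).card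

/-- the product of `1 - omega p / p` over the primes `p ≤ n` -/
noncomputable def dens {m : ℕ} (a : Fin m → ℕ) (b : Fin m → ℤ) (n : ℕ) : ℝ :=
  ∏ p ∈ (Icc 1 n).filter Nat.Prime, (1 - (omega a b p : ℝ) / p)

/-- the value `a_i y + b_i` (it is positive in the situation below) -/
def val {m : ℕ} (a : Fin m → ℕ) (b : Fin m → ℤ) (i : Fin m) (y : ℕ) : ℕ := ((a i : ℤ) * (y : ℤ) + b i).natAbs

open Classical in
/-- the primes `n < p < 2 n` such that all prime factors of all the `a_i p + b_i` are larger than `n ^ (1/t)` -/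
noncomputable def Good {m : ℕ} (t n : ℕ) (a : Fin m → ℕ) (b : Fin m → ℤ) : Finset ℕ :=
  (Ioo n (2 * n)).filter (fun p : ℕ => p.Prime ∧ ∀ i, ∀ r : ℕ, r.Prime → r ∣ val a b i p → (n : ℝ) ^ (1 / (t : ℝ)) < r)

/-- the polynomials -/
noncomputable def G {m : ℕ} (a : Fin m → ℕ) (b : Fin m → ℤ) (i : Fin m) : ℤ[X] := C (a i : ℤ) * X + C (b i)

theorem eval_G {m : ℕ} (a : Fin m → ℕ) (b : Fin m → ℤ) (i : Fin m) (x : ℤ) : (G a b i).eval x = (a i : ℤ) * x + b i := by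
  unfold G
  simp

theorem eval_all {m : ℕ} (a : Fin m → ℕ) (b : Fin m → ℤ) (x : ℤ) :
    ((C (1 : ℤ) * X + C (0 : ℤ)) * ∏ i, G a b i).eval x = x * ∏ i, ((a i : ℤ) * x + b i) := by
  rw [eval_mul, eval_prod]
  simp only [eval_G, eval_add, eval_mul, eval_C, eval_X]
  ring

/-- the values are positive and at least `2` -/
theorem val_pos {m k n : ℕ} {a : Fin m → ℕ} {b : Fin m → ℤ} (h : Admissible a b) (hn : 4 ≤ n) (hs : Sized k n a b) (i : Fin m)
    {y : ℕ} (h1 : n < y) : 2 ≤ (a i : ℤ) * y + b i := by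
  obtain ⟨_, g2⟩ := hs i
  have g3 := (abs_le.1 (le_refl |b i|)).1
  have g4 : (1 : ℤ) ≤ a i := by exact_mod_cast h.1 i
  have g5 : (n : ℤ) + 1 ≤ y := by exact_mod_cast h1
  have g6 : (4 : ℤ) ≤ n := by exact_mod_cast hn
  nlinarith

theorem rep {m k n : ℕ} {a : Fin m → ℕ} {b : Fin m → ℤ} (h : Admissible a b) (hn : 4 ≤ n) (hs : Sized k n a b) :
    Rep m (k + 2) n 1 0 (fun y => y) (val a b) (G a b) := by
  constructor
  · refine (natDegree_prod_le _ _).trans ?_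
    calc _ ≤ ∑ _i : Fin m, 1 := sum_le_sum fun i _ => natDegree_linear_le
      _ = m := by simp
  · intro p hp
    obtain ⟨x, hx⟩ := h.2 p hp
    exact ⟨x, by rw [eval_all]; exact hx⟩
  · intro y h1 h2
    exact ⟨by simp, h1⟩
  · intro y h1 h2 i
    rw [eval_G]
    rfl
  · intro y h1 h2 i
    have g1 := val_pos h hn hs i h1
    obtain ⟨g2, g3⟩ := hs i
    have g4 := (abs_le.1 (le_refl |b i|)).2
    have g5 : (y : ℤ) ≤ 2 * n - 1 := by
      have : (y : ℤ) < 2 * n := by exact_mod_cast h2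
      linarith
    have g6 : (a i : ℤ) ≤ (n : ℤ) ^ k := by exact_mod_cast g2
    have g7 : (1 : ℤ) ≤ a i := by exact_mod_cast h.1 i
    have g8 : (4 : ℤ) ≤ n := by exact_mod_cast hn
    have g9 : (a i : ℤ) * y + b i ≤ (n : ℤ) ^ (k + 2) := by
      have e1 : (a i : ℤ) * y + b i ≤ (a i : ℤ) * (4 * n) := by nlinarith
      have e2 : (a i : ℤ) * (4 * n) ≤ (n : ℤ) ^ k * (n * n) := by
        apply mul_le_mul g6 (by nlinarith) (by positivity) (by positivity)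
      calc (a i : ℤ) * y + b i ≤ (n : ℤ) ^ k * (n * n) := e1.trans e2
        _ = _ := by ring
    unfold val
    constructor
    · omega
    · have e3 : (((a i : ℤ) * y + b i).natAbs : ℤ) ≤ (n : ℤ) ^ (k + 2) := by
        rw [Int.natAbs_of_nonneg (by linarith)]
        exact g9
      exact_mod_cast e3

theorem Good_eq {m : ℕ} (t n : ℕ) (a : Fin m → ℕ) (b : Fin m → ℤ) : Good t n a b = T (fun y => y) (val a b) t n := rfl

theorem dens_eq {m : ℕ} (a : Fin m → ℕ) (b : Fin m → ℤ) (n : ℕ) :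
    dens a b n = W ((C (1 : ℤ) * X + C (0 : ℤ)) * ∏ i, G a b i) n := by
  unfold dens W
  apply prod_congr rfl
  intro p _
  unfold omega rt
  simp only [eval_all]

/-- the system `2 x - 1` of the question is admissible -/
theorem adm_question : Admissible (fun _ : Fin 1 => 2) (fun _ => -1) := by
  refine ⟨fun _ => by norm_num, fun p hp => ⟨1, ?_⟩⟩
  rw [Fin.prod_univ_one]
  norm_num
  exact Int.natCast_dvd.not.2 (by simpa using hp.one_lt.ne')

/-- **Narrow progressions of primes `p` with all `a_i p + b_i` almost prime, uniformly in the admissible system.** -/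
theorem result (m k : ℕ) : ∃ t : ℕ, 1 ≤ t ∧ ∃ c : ℝ, 0 < c ∧ Admissible (fun _ : Fin 1 => 2) (fun _ => -1) ∧
    (∃ N : ℕ, ∀ n : ℕ, N ≤ n → ∀ (a : Fin m → ℕ) (b : Fin m → ℤ), Admissible a b → Sized k n a b →
      c / Real.log n ^ (m + 1) ≤ dens a b n ∧ c * (n * dens a b n) ≤ ((Good t n a b).card : ℝ)) ∧
    (∀ (L : ℕ) (δ : ℝ), 0 < δ → ∃ D N : ℕ, ∀ n : ℕ, N ≤ n → ∀ (a : Fin m → ℕ) (b : Fin m → ℤ), Admissible a b → Sized k n a b →
      ∀ S ⊆ Good t n a b, δ * ((Good t n a b).card : ℝ) ≤ S.card →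
        ∃ x d : ℕ, 1 ≤ d ∧ (d : ℝ) ≤ Real.log n ^ D ∧ ∀ j < L, x + j * d ∈ S) ∧
    (∀ (L q : ℕ), 1 ≤ q → ∃ D N : ℕ, ∀ n : ℕ, N ≤ n → ∀ (a : Fin m → ℕ) (b : Fin m → ℤ), Admissible a b → Sized k n a b →
      ∀ col : ℕ → Fin q, ∃ (s : Fin m → ℕ) (κ : Fin q) (x d : ℕ), (∀ i, 1 ≤ s i ∧ s i ≤ t * (k + 2)) ∧
        1 ≤ d ∧ (d : ℝ) ≤ Real.log n ^ D ∧ ∀ j < L, n < x + j * d ∧ x + j * d < 2 * n ∧ (x + j * d).Prime ∧ col (x + j * d) = κ ∧
          ∀ i, 0 < (a i : ℤ) * ((x + j * d : ℕ) : ℤ) + b i ∧ (val a b i (x + j * d)).primeFactorsList.length = s i ∧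
            ∀ r : ℕ, r.Prime → r ∣ val a b i (x + j * d) → (n : ℝ) ^ (1 / (t : ℝ)) < r) := by
  classical
  obtain ⟨t, ht, H⟩ := natRow m m (k + 2)
  obtain ⟨c, hc, ⟨N1, h1⟩, h2, h3⟩ := H 1 0 (by norm_num)
  refine ⟨t, ht, c, hc, adm_question, ⟨max N1 4, fun n hn a b ha hs => ?_⟩, fun L δ hδ => ?_, fun L q hq => ?_⟩
  · rw [dens_eq, Good_eq]
    exact h1 n ((le_max_left _ _).trans hn) _ _ _ (rep ha ((le_max_right _ _).trans hn) hs)
  · obtain ⟨D, N, h4⟩ := h2 L δ hδ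
    refine ⟨D, max N 4, fun n hn a b ha hs S hS hSc => ?_⟩
    rw [Good_eq] at hS hSc
    exact h4 n ((le_max_left _ _).trans hn) _ _ _ (rep ha ((le_max_right _ _).trans hn) hs) S hS hSc
  · obtain ⟨D, N, h4⟩ := h3 L q hq
    refine ⟨D, max N 4, fun n hn a b ha hs col => ?_⟩
    obtain ⟨s, κ, x, d, g1, g2, g3, g4⟩ := h4 n ((le_max_left _ _).trans hn) _ _ _
      (rep ha ((le_max_right _ _).trans hn) hs) col
    refine ⟨s, κ, x, d, g1, g2, g3, fun j hj => ?_⟩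
    obtain ⟨g5, g6, g7⟩ := g4 j hj
    unfold T at g5
    rw [mem_filter, mem_Ioo] at g5
    exact ⟨g5.1.1, g5.1.2, g5.2.1, g6, fun i => ⟨by
      have := val_pos ha ((le_max_right _ _).trans hn) hs i g5.1.1
      linarith, g7 i, g5.2.2 i⟩⟩

end Pool.Agent.Results.MP_0fefc4_nt.UniformProgressions
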